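import Mathlib

set_option autoImplicit false

/-!
Generating function computations over a commutative semiring.
-/

namespace Pool.Agent.Helper73.Dom

open Finset

variable {R : Type} [CommSemiring R]

/-- weight of one vertex: `x` if the vertex is chosen and `1` otherwise -/
def g (x : R) (z : Bool) : R := if z = true then x else 1

lemma sum_g (x : R) : ∑ z : Bool, g x z = 1 + x := by
  simp [g, add_comm]

/-- product of sums over Boolean functions -/
lemma sum_prod_bool {ι : Type} [Fintype ι] [DecidableEq ι] {κ : Type} [Fintype κ] (f : ι → κ → R) :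
    ∑ σ : ι → κ, ∏ i, f i (σ i) = ∏ i, ∑ z : κ, f i z := by
  classical
  rw [Finset.prod_univ_sum]
  simp [Fintype.piFinset_univ]

/-- indicator as a product -/
lemma ind_forall {ι : Type} [Fintype ι] (p : ι → Prop) [DecidablePred p] [Decidable (∀ i, p i)] :
    (if ∀ i, p i then (1 : R) else 0) = ∏ i, if p i then (1 : R) else 0 := by
  classical
  by_cases h : ∀ i, p i
  · simp [h]
  · rw [if_neg h]
    push Not at h
    obtain ⟨i, hi⟩ := h
    symm
    apply Finset.prod_eq_zero (Finset.mem_univ i)
    simp [hi]

/-- the weight of the coupling vertices and the W-vertices for a fixed choice of the U-vertices -/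
lemma coupling (x : R) (a b s : ℕ) (α : Fin a × Fin b → Bool) :
    ∑ β : Fin a × Fin s → Bool, ∑ γ : (Fin a × Fin s) × Fin b → Bool,
      (∏ e, g x (β e)) * (∏ e, g x (γ e)) *
        (if ∀ e : (Fin a × Fin s) × Fin b, (γ e = true ∨ β e.1 = true ∨ α (e.1.1, e.2) = true)
          then (1 : R) else 0)
      = ∏ i : Fin a, (x * (1 + x) ^ b + ∏ j : Fin b, (if α (i, j) = true then 1 + x else x)) ^ s := by
  classical
  have h1 : ∀ β : Fin a × Fin s → Bool, ∑ γ : (Fin a × Fin s) × Fin b → Bool,
      (∏ e, g x (β e)) * (∏ e, g x (γ e)) *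
        (if ∀ e : (Fin a × Fin s) × Fin b, (γ e = true ∨ β e.1 = true ∨ α (e.1.1, e.2) = true)
          then (1 : R) else 0)
      = ∏ e : Fin a × Fin s, (g x (β e) * ∏ j : Fin b,
          (if (β e = true ∨ α (e.1, j) = true) then 1 + x else x)) := by
    intro β
    have : ∀ γ : (Fin a × Fin s) × Fin b → Bool,
        (∏ e, g x (β e)) * (∏ e, g x (γ e)) *
        (if ∀ e : (Fin a × Fin s) × Fin b, (γ e = true ∨ β e.1 = true ∨ α (e.1.1, e.2) = true)
          then (1 : R) else 0) = (∏ e, g x (β e)) * ∏ e : (Fin a × Fin s) × Fin b, (g x (γ e) *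
            (if (γ e = true ∨ β e.1 = true ∨ α (e.1.1, e.2) = true) then (1 : R) else 0)) := by
      intro γ
      rw [ind_forall, mul_assoc, ← Finset.prod_mul_distrib]
    simp_rw [this]
    rw [← Finset.mul_sum, sum_prod_bool (f := fun (e : (Fin a × Fin s) × Fin b) (z : Bool) => g x z *
      (if (z = true ∨ β e.1 = true ∨ α (e.1.1, e.2) = true) then (1 : R) else 0)),
      Finset.prod_mul_distrib]
    congr 1
    rw [Fintype.prod_prod_type]
    refine Finset.prod_congr rfl fun e _ => ?_
    refine Finset.prod_congr rfl fun j _ => ?_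
    by_cases h : β e = true ∨ α (e.1, j) = true
    · simp [h, g, add_comm]
    · simp [h, g]
  simp_rw [h1]
  rw [sum_prod_bool (f := fun (e : Fin a × Fin s) (z : Bool) => g x z * ∏ j : Fin b,
          (if (z = true ∨ α (e.1, j) = true) then 1 + x else x)), Fintype.prod_prod_type]
  refine Finset.prod_congr rfl fun i _ => ?_
  simp [g]

/-- the weight of the blade vertices for a fixed choice of the U-vertices -/
lemma blades [IsCancelAdd R] (x : R) (a b m : ℕ) (α : Fin a × Fin b → Bool) (q : R)
    (hq : q + 1 = (1 + x) ^ a) :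
    ∑ δ : (Fin b × Fin m) × Fin a → Bool, (∏ e, g x (δ e)) *
        (if ∀ e : (Fin b × Fin m) × Fin a, (α (e.2, e.1.1) = true ∨ ∃ i : Fin a, δ (e.1, i) = true)
          then (1 : R) else 0)
      = ∏ j : Fin b, (if (∀ i, α (i, j) = true) then (1 + x) ^ a else q) ^ m := by
  classical
  -- curry
  rw [← Equiv.sum_comp (Equiv.curry (Fin b × Fin m) (Fin a) Bool).symm]
  have h1 : ∀ δ : Fin b × Fin m → Fin a → Bool,
      (∏ e, g x ((Equiv.curry (Fin b × Fin m) (Fin a) Bool).symm δ e)) *
        (if ∀ e : (Fin b × Fin m) × Fin a, (α (e.2, e.1.1) = true ∨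
            ∃ i : Fin a, (Equiv.curry (Fin b × Fin m) (Fin a) Bool).symm δ (e.1, i) = true)
          then (1 : R) else 0) = ∏ c : Fin b × Fin m, ((∏ i, g x (δ c i)) *
            (if ((∀ i, α (i, c.1) = true) ∨ ∃ i : Fin a, δ c i = true) then (1 : R) else 0)) := by
    intro δ
    rw [Finset.prod_mul_distrib, Fintype.prod_prod_type]
    congr 1
    rw [← ind_forall]
    congr 1
    apply propext
    constructor
    · intro h c
      by_contra hc
      push Not at hc
      obtain ⟨⟨i, hi⟩, h2⟩ := hc
      rcases h (c, i) with h3 | ⟨i', h3⟩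
      · exact hi h3
      · exact h2 i' h3
    · intro h e
      rcases h e.1 with h3 | ⟨i', h3⟩
      · exact Or.inl (h3 e.2)
      · exact Or.inr ⟨i', h3⟩
  simp_rw [h1]
  rw [sum_prod_bool (f := fun (c : Fin b × Fin m) (η : Fin a → Bool) => (∏ i, g x (η i)) *
            (if ((∀ i, α (i, c.1) = true) ∨ ∃ i : Fin a, η i = true) then (1 : R) else 0)),
      Fintype.prod_prod_type]
  refine Finset.prod_congr rfl fun j _ => ?_
  have hfull : ∑ η : Fin a → Bool, ∏ i, g x (η i) = (1 + x) ^ a := by
    rw [sum_prod_bool (f := fun (_ : Fin a) (z : Bool) => g x z), sum_g, Finset.prod_const,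
      Finset.card_univ, Fintype.card_fin]
  have key : ∀ y : Fin m, (∑ z : Fin a → Bool, (∏ i, g x (z i)) *
      if (∀ (i : Fin a), α (i, (j, y).1) = true) ∨ ∃ i, z i = true then (1 : R) else 0)
      = (if ∀ (i : Fin a), α (i, j) = true then (1 + x) ^ a else q) := by
    intro y
    by_cases h : ∀ i, α (i, j) = true
    · simp [h, hfull]
    · simp only [h, false_or, if_false]
      have h2 : ∑ η : Fin a → Bool, (∏ i, g x (η i)) *
          (if (∃ i : Fin a, η i = true) then (1 : R) else 0) + 1 = q + 1 := by
        rw [hq, ← hfull, ← Finset.add_sum_erase _ _ (Finset.mem_univ (fun _ : Fin a => false)),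
          ← Finset.add_sum_erase _ (fun η : Fin a → Bool => ∏ i, g x (η i))
            (Finset.mem_univ (fun _ : Fin a => false))]
        have h3 : (∏ i : Fin a, g x ((fun _ : Fin a => false) i)) = 1 := by simp [g]
        rw [h3]
        simp only [Bool.false_eq_true, exists_false, if_false, mul_zero, zero_add]
        rw [add_comm]
        congr 1
        refine Finset.sum_congr rfl fun η hη => ?_
        have : ∃ i, η i = true := by
          by_contra hc
          push Not at hc
          apply (Finset.mem_erase.mp hη).1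
          funext i
          simpa using hc i
        simp [this]
      exact add_right_cancel h2
  rw [Finset.prod_congr rfl (fun y _ => key y), Finset.prod_const, Finset.card_univ,
    Fintype.card_fin]

/-- the row sum: sum over the choices in one row that contain all columns of `J` -/
lemma row_sum (x : R) (b : ℕ) (h : ℕ → R) (J : Finset (Fin b)) :
    ∑ ρ : Fin b → Bool, (if ∀ j ∈ J, ρ j = true then (1 : R) else 0) *
      ((∏ j, g x (ρ j)) * h (#{j | ρ j = false}))
      = ∑ o ∈ range (b - #J + 1), (((b - #J).choose o : ℕ) : R) * (x ^ (b - o) * h o) := by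
  classical
  -- reindex by the set of columns not chosen
  have h1 : ∑ ρ : Fin b → Bool, (if ∀ j ∈ J, ρ j = true then (1 : R) else 0) *
      ((∏ j, g x (ρ j)) * h (#{j | ρ j = false}))
      = ∑ T : Finset (Fin b), (if T ⊆ Jᶜ then (1 : R) else 0) * (x ^ (b - #T) * h (#T)) := by
    refine Finset.sum_bij' (fun ρ _ => ({j | ρ j = false} : Finset (Fin b)))
      (fun T _ => fun j => decide (j ∉ T)) ?_ ?_ ?_ ?_ ?_
    · intro ρ _; exact Finset.mem_univ _
    · intro T _; exact Finset.mem_univ _
    · intro ρ _
      funext j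
      by_cases hj : ρ j = true
      · simp [hj]
      · simp only [Bool.not_eq_true] at hj
        simp [hj]
    · intro T _
      ext j
      simp
    · intro ρ _
      have e1 : (∀ j ∈ J, ρ j = true) ↔ ({j | ρ j = false} : Finset (Fin b)) ⊆ Jᶜ := by
        constructor
        · intro hh j hj
          simp only [Finset.mem_filter, Finset.mem_univ, true_and] at hj
          simp only [Finset.mem_compl]
          intro hj2
          simp [hh j hj2] at hj
        · intro hh j hj
          by_contra hc
          simp only [Bool.not_eq_true] at hc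
          have := hh (by simpa using hc : j ∈ ({j | ρ j = false} : Finset (Fin b)))
          simp only [Finset.mem_compl] at this
          exact this hj
      have e2 : ∏ j, g x (ρ j) = x ^ (b - #({j | ρ j = false} : Finset (Fin b))) := by
        unfold g
        rw [Finset.prod_ite, Finset.prod_const, Finset.prod_const_one, mul_one]
        congr 1
        have := Finset.card_filter_add_card_filter_not (s := (Finset.univ : Finset (Fin b)))
          (fun j => ρ j = true)
        simp only [Finset.card_univ, Fintype.card_fin, Bool.not_eq_true] at this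
        omega
      rw [e2]
      congr 1
      by_cases h3 : ∀ j ∈ J, ρ j = true
      · rw [if_pos h3, if_pos (e1.mp h3)]
      · rw [if_neg h3, if_neg (fun h4 => h3 (e1.mpr h4))]
  rw [h1]
  have h2 : ∑ T : Finset (Fin b), (if T ⊆ Jᶜ then (1 : R) else 0) * (x ^ (b - #T) * h (#T))
      = ∑ T ∈ (Jᶜ).powerset, x ^ (b - #T) * h (#T) := by
    rw [← Finset.sum_filter_add_sum_filter_not Finset.univ (fun T => T ⊆ Jᶜ)]
    have z : ∑ T ∈ Finset.univ.filter (fun T : Finset (Fin b) => ¬ T ⊆ Jᶜ),
        (if T ⊆ Jᶜ then (1 : R) else 0) * (x ^ (b - #T) * h (#T)) = 0 := by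
      apply Finset.sum_eq_zero
      intro T hT
      simp only [Finset.mem_filter, Finset.mem_univ, true_and] at hT
      simp [hT]
    rw [z, add_zero]
    refine Finset.sum_congr ?_ ?_
    · ext T; simp
    · intro T hT
      have : T ⊆ Jᶜ := Finset.mem_powerset.mp hT
      simp [this]
  rw [h2, Finset.sum_powerset_apply_card (fun o => x ^ (b - o) * h o)]
  rw [Finset.card_compl, Fintype.card_fin]
  refine Finset.sum_congr rfl fun o _ => ?_
  rw [nsmul_eq_mul]

/-- the sum over the choices of the U-vertices -/
lemma u_sum (x : R) (a b : ℕ) (h : ℕ → R) (A B : R) :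
    ∑ α : Fin a × Fin b → Bool, (∏ e, g x (α e)) *
      ((∏ i : Fin a, h (#{j : Fin b | α (i, j) = false})) *
       ∏ j : Fin b, (if (∀ i, α (i, j) = true) then A + B else B))
      = ∑ j ∈ range (b + 1), ((b.choose j : ℕ) : R) * (A ^ j * B ^ (b - j) *
          (∑ o ∈ range (b - j + 1), (((b - j).choose o : ℕ) : R) * (x ^ (b - o) * h o)) ^ a) := by
  classical
  have h1 : ∀ α : Fin a × Fin b → Bool,
      ∏ j : Fin b, (if (∀ i, α (i, j) = true) then A + B else B)
      = ∑ J ∈ (Finset.univ : Finset (Fin b)).powerset,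
          A ^ (#J) * B ^ (b - #J) * (if ∀ i, ∀ j ∈ J, α (i, j) = true then (1 : R) else 0) := by
    intro α
    have : ∀ j : Fin b, (if (∀ i, α (i, j) = true) then A + B else B)
        = A * (if (∀ i, α (i, j) = true) then (1 : R) else 0) + B := by
      intro j
      split_ifs <;> simp
    simp_rw [this]
    rw [Finset.prod_add]
    refine Finset.sum_congr rfl fun J _ => ?_
    rw [Finset.prod_mul_distrib, Finset.prod_const, Finset.prod_const]
    have c : #(Finset.univ \ J) = b - #J := by
      rw [← Finset.compl_eq_univ_sdiff, Finset.card_compl, Fintype.card_fin]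
    rw [c]
    have d : ∏ j ∈ J, (if (∀ i, α (i, j) = true) then (1 : R) else 0)
        = (if ∀ i, ∀ j ∈ J, α (i, j) = true then (1 : R) else 0) := by
      by_cases h3 : ∀ i, ∀ j ∈ J, α (i, j) = true
      · rw [if_pos h3]
        apply Finset.prod_eq_one
        intro j hj
        rw [if_pos (fun i => h3 i j hj)]
      · rw [if_neg h3]
        push Not at h3
        obtain ⟨i, j, hj, h4⟩ := h3
        apply Finset.prod_eq_zero hj
        rw [if_neg]
        intro h5
        exact h4 (h5 i)
    rw [d]
    ring
  simp_rw [h1, Finset.mul_sum]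
  rw [Finset.sum_comm]
  have h2 : ∀ J : Finset (Fin b), ∑ α : Fin a × Fin b → Bool, (∏ e, g x (α e)) *
      ((∏ i : Fin a, h (#{j : Fin b | α (i, j) = false})) *
        (A ^ (#J) * B ^ (b - #J) * (if ∀ i, ∀ j ∈ J, α (i, j) = true then (1 : R) else 0)))
      = A ^ (#J) * B ^ (b - #J) *
          (∑ o ∈ range (b - #J + 1), (((b - #J).choose o : ℕ) : R) * (x ^ (b - o) * h o)) ^ a := by
    intro J
    rw [← Equiv.sum_comp (Equiv.curry (Fin a) (Fin b) Bool).symm]
    have h3 : ∀ α : Fin a → Fin b → Bool,
        (∏ e, g x ((Equiv.curry (Fin a) (Fin b) Bool).symm α e)) *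
        ((∏ i : Fin a, h (#{j : Fin b | (Equiv.curry (Fin a) (Fin b) Bool).symm α (i, j) = false})) *
        (A ^ (#J) * B ^ (b - #J) * (if ∀ i, ∀ j ∈ J,
          (Equiv.curry (Fin a) (Fin b) Bool).symm α (i, j) = true then (1 : R) else 0)))
        = A ^ (#J) * B ^ (b - #J) * ∏ i : Fin a, ((if ∀ j ∈ J, α i j = true then (1 : R) else 0) *
          ((∏ j, g x (α i j)) * h (#{j : Fin b | α i j = false}))) := by
      intro α
      rw [Finset.prod_mul_distrib, Finset.prod_mul_distrib, ← ind_forall, Fintype.prod_prod_type]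
      simp only [Equiv.curry_symm_apply, Function.uncurry_apply_pair]
      ring
    simp_rw [h3]
    rw [← Finset.mul_sum, sum_prod_bool (f := fun (_ : Fin a) (ρ : Fin b → Bool) =>
      (if ∀ j ∈ J, ρ j = true then (1 : R) else 0) *
          ((∏ j, g x (ρ j)) * h (#{j : Fin b | ρ j = false}))), Finset.prod_const,
      Finset.card_univ, Fintype.card_fin, row_sum]
  simp_rw [h2]
  rw [Finset.sum_powerset_apply_card (fun j => A ^ j * B ^ (b - j) *
          (∑ o ∈ range (b - j + 1), (((b - j).choose o : ℕ) : R) * (x ^ (b - o) * h o)) ^ a)]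
  rw [Finset.card_univ, Fintype.card_fin]
  refine Finset.sum_congr rfl fun j _ => ?_
  rw [nsmul_eq_mul]

end Pool.Agent.Helper73.Dom
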