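import Mathlib
import Pool.Agent.Helper73.Dom.Gen

set_option autoImplicit false

/-!
The graph: a grid of `a * b` vertices `u i j`, for each row `i` there are `s` vertices `w i t`
adjacent to all `u i j` of the row, for each `i, t, j` a vertex `c i t j` adjacent to `u i j` and
`w i t`, and for each column `j` there are `m` disjoint cliques on `a` vertices `p j k i` (`i < a`),
with `p j k i` adjacent to `u i j`.
-/

namespace Pool.Agent.Helper73.Dom

open Finset Polynomial

/-- vertex type -/
abbrev Vx (a b m s : ℕ) : Type :=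
  (Fin a × Fin b) ⊕ ((Fin a × Fin s) ⊕ (((Fin a × Fin s) × Fin b) ⊕ ((Fin b × Fin m) × Fin a)))

/-- the adjacency relation before symmetrisation -/
def rel (a b m s : ℕ) : Vx a b m s → Vx a b m s → Prop
  | Sum.inl u, Sum.inr (Sum.inl w) => u.1 = w.1
  | Sum.inl u, Sum.inr (Sum.inr (Sum.inl c)) => u.1 = c.1.1 ∧ u.2 = c.2
  | Sum.inl u, Sum.inr (Sum.inr (Sum.inr p)) => u.1 = p.2 ∧ u.2 = p.1.1
  | Sum.inr (Sum.inl w), Sum.inr (Sum.inr (Sum.inl c)) => w = c.1
  | Sum.inr (Sum.inr (Sum.inr p)), Sum.inr (Sum.inr (Sum.inr p')) => p.1 = p'.1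
  | _, _ => False

/-- the graph -/
def gr (a b m s : ℕ) : SimpleGraph (Vx a b m s) := SimpleGraph.fromRel (rel a b m s)

/-- domination in the graph is equivalent to two families of local conditions -/
lemma dom_iff (a b m s : ℕ) (hb : 0 < b) (hs : 0 < s) (P : Vx a b m s → Prop) :
    (∀ v, P v ∨ ∃ u, P u ∧ (gr a b m s).Adj v u) ↔
      ((∀ e : (Fin a × Fin s) × Fin b, P (Sum.inr (Sum.inr (Sum.inl e))) ∨ P (Sum.inr (Sum.inl e.1)) ∨
          P (Sum.inl (e.1.1, e.2))) ∧
       (∀ e : (Fin b × Fin m) × Fin a, P (Sum.inl (e.2, e.1.1)) ∨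
          ∃ i : Fin a, P (Sum.inr (Sum.inr (Sum.inr (e.1, i)))))) := by
  constructor
  · intro h
    constructor
    · intro e
      rcases h (Sum.inr (Sum.inr (Sum.inl e))) with h1 | ⟨u, hu, hadj⟩
      · exact Or.inl h1
      · rw [gr, SimpleGraph.fromRel_adj] at hadj
        obtain ⟨_, hadj⟩ := hadj
        rcases u with u | w | c | p
        · simp only [rel, false_or] at hadj
          right; right
          have : u = (e.1.1, e.2) := Prod.ext hadj.1 hadj.2
          rw [← this]; exact hu
        · simp only [rel, false_or] at hadj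
          right; left
          rw [← hadj]; exact hu
        · simp [rel] at hadj
        · simp [rel] at hadj
    · intro e
      rcases h (Sum.inr (Sum.inr (Sum.inr e))) with h1 | ⟨u, hu, hadj⟩
      · exact Or.inr ⟨e.2, h1⟩
      · rw [gr, SimpleGraph.fromRel_adj] at hadj
        obtain ⟨_, hadj⟩ := hadj
        rcases u with u | w | c | p
        · simp only [rel, false_or] at hadj
          left
          have : u = (e.2, e.1.1) := Prod.ext hadj.1 hadj.2
          rw [← this]; exact hu
        · simp [rel] at hadj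
        · simp [rel] at hadj
        · simp only [rel] at hadj
          right
          refine ⟨p.2, ?_⟩
          have : e.1 = p.1 := by
            rcases hadj with h2 | h2
            · exact h2
            · exact h2.symm
          rw [this]; exact hu
  · rintro ⟨h1, h2⟩ v
    rcases v with u | w | c | p
    · -- u
      rcases h1 ((u.1, ⟨0, hs⟩), u.2) with h3 | h3 | h3
      · right
        refine ⟨_, h3, ?_⟩
        rw [gr, SimpleGraph.fromRel_adj]
        refine ⟨by simp, Or.inl ?_⟩
        simp [rel]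
      · right
        refine ⟨_, h3, ?_⟩
        rw [gr, SimpleGraph.fromRel_adj]
        refine ⟨by simp, Or.inl ?_⟩
        simp [rel]
      · left; exact h3
    · -- w
      rcases h1 (w, ⟨0, hb⟩) with h3 | h3 | h3
      · right
        refine ⟨_, h3, ?_⟩
        rw [gr, SimpleGraph.fromRel_adj]
        refine ⟨by simp, Or.inl ?_⟩
        simp [rel]
      · left; exact h3
      · right
        refine ⟨_, h3, ?_⟩
        rw [gr, SimpleGraph.fromRel_adj]
        refine ⟨by simp, Or.inr ?_⟩
        simp [rel]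
    · -- c
      rcases h1 c with h3 | h3 | h3
      · left; exact h3
      · right
        refine ⟨_, h3, ?_⟩
        rw [gr, SimpleGraph.fromRel_adj]
        refine ⟨by simp, Or.inr ?_⟩
        simp [rel]
      · right
        refine ⟨_, h3, ?_⟩
        rw [gr, SimpleGraph.fromRel_adj]
        refine ⟨by simp, Or.inr ?_⟩
        simp [rel]
    · -- p
      rcases h2 p with h3 | ⟨i, h3⟩
      · right
        refine ⟨_, h3, ?_⟩
        rw [gr, SimpleGraph.fromRel_adj]
        refine ⟨by simp, Or.inr ?_⟩
        simp [rel]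
      · by_cases hi : i = p.2
        · left
          rw [hi] at h3; exact h3
        · right
          refine ⟨_, h3, ?_⟩
          rw [gr, SimpleGraph.fromRel_adj]
          refine ⟨?_, Or.inl ?_⟩
          · intro h4
            apply hi
            simp only [Sum.inr.injEq] at h4
            rw [h4]
          · simp [rel]

/-- Boolean functions on a finite type are the same as finsets -/
def boolEquiv (V : Type) [Fintype V] [DecidableEq V] : (V → Bool) ≃ Finset V where
  toFun σ := Finset.univ.filter (fun v => σ v = true)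
  invFun S := fun v => decide (v ∈ S)
  left_inv σ := by
    funext v
    by_cases h : σ v = true
    · simp [h]
    · simp [h]
  right_inv S := by
    ext v
    simp

lemma pow_card {R : Type} [CommSemiring R] (x : R) (V : Type) [Fintype V] [DecidableEq V] (σ : V → Bool) :
    x ^ (#(boolEquiv V σ)) = ∏ v, g x (σ v) := by
  unfold g
  rw [Finset.prod_ite, Finset.prod_const, Finset.prod_const_one, mul_one]
  rfl

open Classical in
/-- the weighted count of dominating sets -/
theorem dom_sum {R : Type} [CommSemiring R] [IsCancelAdd R] (x : R) (a b m s : ℕ) (hb : 0 < b)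
    (hs : 0 < s) (q A : R) (hq : q + 1 = (1 + x) ^ a) (hA : A + q ^ m = (1 + x) ^ (a * m)) :
    ∑ S : Finset (Vx a b m s), (if ∀ v, v ∈ S ∨ ∃ u ∈ S, (gr a b m s).Adj v u then x ^ (#S) else 0)
      = ∑ j ∈ range (b + 1), ((b.choose j : ℕ) : R) * (A ^ j * (q ^ m) ^ (b - j) *
          (∑ o ∈ range (b - j + 1), (((b - j).choose o : ℕ) : R) * (x ^ (b - o) *
            (x * (1 + x) ^ b + x ^ o * (1 + x) ^ (b - o)) ^ s)) ^ a) := by
  rw [← u_sum x a b (fun o => (x * (1 + x) ^ b + x ^ o * (1 + x) ^ (b - o)) ^ s) A (q ^ m)]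
  rw [← Equiv.sum_comp (boolEquiv (Vx a b m s))]
  rw [← Equiv.sum_comp (Equiv.sumArrowEquivProdArrow (Fin a × Fin b) _ Bool).symm,
    Fintype.sum_prod_type]
  refine Finset.sum_congr rfl fun α _ => ?_
  rw [← Equiv.sum_comp (Equiv.sumArrowEquivProdArrow (Fin a × Fin s) _ Bool).symm,
    Fintype.sum_prod_type]
  have hW : (∏ i : Fin a, (fun o => (x * (1 + x) ^ b + x ^ o * (1 + x) ^ (b - o)) ^ s)
      (#{j : Fin b | α (i, j) = false}))
      = ∏ i : Fin a, (x * (1 + x) ^ b + ∏ j : Fin b, (if α (i, j) = true then 1 + x else x)) ^ s := by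
    refine Finset.prod_congr rfl fun i _ => ?_
    dsimp only
    congr 2
    rw [Finset.prod_ite, Finset.prod_const, Finset.prod_const, mul_comm]
    have := Finset.card_filter_add_card_filter_not (s := (Finset.univ : Finset (Fin b)))
          (fun j => α (i, j) = true)
    simp only [Finset.card_univ, Fintype.card_fin, Bool.not_eq_true] at this
    simp only [Bool.not_eq_true]
    congr 2
    omega
  have hP : (∏ j : Fin b, (if (∀ i, α (i, j) = true) then A + q ^ m else q ^ m))
      = ∏ j : Fin b, (if (∀ i, α (i, j) = true) then (1 + x) ^ a else q) ^ m := by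
    refine Finset.prod_congr rfl fun j _ => ?_
    split_ifs
    · rw [hA, pow_mul]
    · rfl
  rw [hW, hP, ← coupling x a b s α, ← blades x a b m α q hq, Finset.sum_mul, Finset.mul_sum]
  refine Finset.sum_congr rfl fun β _ => ?_
  rw [← Equiv.sum_comp (Equiv.sumArrowEquivProdArrow ((Fin a × Fin s) × Fin b) _ Bool).symm,
    Fintype.sum_prod_type]
  rw [Finset.sum_mul, Finset.mul_sum]
  refine Finset.sum_congr rfl fun γ _ => ?_
  rw [Finset.mul_sum, Finset.mul_sum]
  refine Finset.sum_congr rfl fun δ _ => ?_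
  rw [pow_card]
  simp only [Fintype.prod_sum_type]
  set σ := (Equiv.sumArrowEquivProdArrow (Fin a × Fin b) ((Fin a × Fin s) ⊕
    (((Fin a × Fin s) × Fin b) ⊕ ((Fin b × Fin m) × Fin a))) Bool).symm (α,
      (Equiv.sumArrowEquivProdArrow (Fin a × Fin s) _ Bool).symm (β,
        (Equiv.sumArrowEquivProdArrow ((Fin a × Fin s) × Fin b) _ Bool).symm (γ, δ))) with hσ
  have hmem : ∀ v, v ∈ boolEquiv (Vx a b m s) σ ↔ σ v = true := by
    intro v; simp [boolEquiv]
  have hd : (∀ v, v ∈ boolEquiv (Vx a b m s) σ ∨ ∃ u ∈ boolEquiv (Vx a b m s) σ,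
      (gr a b m s).Adj v u) ↔
      ((∀ e : (Fin a × Fin s) × Fin b, (γ e = true ∨ β e.1 = true ∨ α (e.1.1, e.2) = true)) ∧
       (∀ e : (Fin b × Fin m) × Fin a, (α (e.2, e.1.1) = true ∨ ∃ i : Fin a, δ (e.1, i) = true))) := by
    simp only [hmem]
    exact dom_iff a b m s hb hs (fun v => σ v = true)
  by_cases h1 : ∀ e : (Fin a × Fin s) × Fin b, (γ e = true ∨ β e.1 = true ∨ α (e.1.1, e.2) = true)
  · by_cases h2 : ∀ e : (Fin b × Fin m) × Fin a, (α (e.2, e.1.1) = true ∨
        ∃ i : Fin a, δ (e.1, i) = true)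
    · rw [if_pos (hd.mpr ⟨h1, h2⟩), if_pos h1, if_pos h2]
      simp only [hσ, Equiv.sumArrowEquivProdArrow, Equiv.coe_fn_symm_mk, Sum.elim_inl, Sum.elim_inr]
      ring
    · rw [if_neg (fun h3 => h2 (hd.mp h3).2), if_neg h2]
      ring
  · rw [if_neg (fun h3 => h1 (hd.mp h3).1), if_neg h1]
    ring

end Pool.Agent.Helper73.Dom
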