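import Mathlib

set_option autoImplicit false

/-!
Numeric evaluation functions used for the kernel computation.
-/

namespace Pool.Agent.Helper73.Dom

/-- sum of f over 0, ..., n-1, by plain recursion -/
def sumTo (f : ℕ → ℕ) (n : ℕ) : ℕ := Nat.rec 0 (fun k ih => ih + f k) n

/-- factorial by plain recursion -/
def fct (n : ℕ) : ℕ := Nat.rec 1 (fun k ih => (k + 1) * ih) n

/-- binomial coefficient through factorials -/
def bin (n k : ℕ) : ℕ := fct n / (fct k * fct (n - k))

/-- value of the row polynomial at the number `x` -/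
def rowN (b s : ℕ) (x j : ℕ) : ℕ :=
  sumTo (fun o => bin (b - j) o * (x ^ (b - o) *
    (x * (1 + x) ^ b + x ^ o * (1 + x) ^ (b - o)) ^ s)) (b - j + 1)

/-- value of the `j`-th term at the number `x` -/
def termN (a b m s : ℕ) (x j : ℕ) : ℕ :=
  bin b j * (((1 + x) ^ (a * m) - ((1 + x) ^ a - 1) ^ m) ^ j *
    (((1 + x) ^ a - 1) ^ m) ^ (b - j) * rowN b s x j ^ a)

/-- the `i`-th digit in base `2 ^ K` -/
def dig (K t i : ℕ) : ℕ := (t >>> (K * i)) % 2 ^ K

end Pool.Agent.Helper73.Dom
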