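import Mathlib
import Pool.Agent.Helper73.Dom.Graph
import Pool.Agent.Helper73.Dom.Num

set_option autoImplicit false

namespace Pool.Agent.Helper73.Dom

open Finset Polynomial

/-- the polynomial `(1 + X) ^ a - 1` -/
noncomputable def qP (a : ℕ) : ℕ[X] := ∑ k ∈ range a, ((a.choose (k + 1) : ℕ) : ℕ[X]) * X ^ (k + 1)

lemma qP_add (a : ℕ) : qP a + 1 = (1 + X : ℕ[X]) ^ a := by
  rw [add_comm (1 : ℕ[X]) X, add_pow, Finset.sum_range_succ', qP]
  simp [mul_comm]

/-- the polynomial `(1 + X) ^ (a * m) - ((1 + X) ^ a - 1) ^ m` -/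
noncomputable def aP (a m : ℕ) : ℕ[X] := ∑ k ∈ range m, ((m.choose k : ℕ) : ℕ[X]) * qP a ^ k

lemma aP_add (a m : ℕ) : aP a m + qP a ^ m = (1 + X : ℕ[X]) ^ (a * m) := by
  rw [pow_mul, ← qP_add, add_pow, Finset.sum_range_succ, aP]
  simp [mul_comm]

/-- the row polynomial -/
noncomputable def rowP (b s j : ℕ) : ℕ[X] :=
  ∑ o ∈ range (b - j + 1), (((b - j).choose o : ℕ) : ℕ[X]) * (X ^ (b - o) *
            (X * (1 + X) ^ b + X ^ o * (1 + X) ^ (b - o)) ^ s)

/-- the term polynomial -/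
noncomputable def termP (a b m s j : ℕ) : ℕ[X] :=
  ((b.choose j : ℕ) : ℕ[X]) * (aP a m ^ j * (qP a ^ m) ^ (b - j) * rowP b s j ^ a)

lemma sumTo_eq (f : ℕ → ℕ) (n : ℕ) : sumTo f n = ∑ k ∈ range n, f k := by
  induction n with
  | zero => rfl
  | succ n ih => rw [Finset.sum_range_succ, ← ih]; rfl

lemma fct_eq (n : ℕ) : fct n = n.factorial := by
  induction n with
  | zero => rfl
  | succ n ih => rw [Nat.factorial_succ, ← ih]; rfl

lemma bin_eq {n k : ℕ} (h : k ≤ n) : bin n k = n.choose k := by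
  rw [bin, fct_eq, fct_eq, fct_eq, Nat.choose_eq_factorial_div_factorial h]

lemma eval_qP (a n : ℕ) : (qP a).eval n = (1 + n) ^ a - 1 := by
  have := congrArg (fun p => Polynomial.eval n p) (qP_add a)
  simp only [eval_add, eval_one, eval_pow, eval_X] at this
  omega

lemma eval_aP (a m n : ℕ) : (aP a m).eval n = (1 + n) ^ (a * m) - ((1 + n) ^ a - 1) ^ m := by
  have := congrArg (fun p => Polynomial.eval n p) (aP_add a m)
  simp only [eval_add, eval_one, eval_pow, eval_X, eval_qP] at this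
  omega

lemma eval_rowP (b s j n : ℕ) : (rowP b s j).eval n = rowN b s n j := by
  rw [rowP, rowN, sumTo_eq, eval_finsetSum]
  refine Finset.sum_congr rfl fun o ho => ?_
  have ho' : o ≤ b - j := by
    have := Finset.mem_range.mp ho; omega
  rw [bin_eq ho']
  simp

lemma eval_termP (a b m s j n : ℕ) (hj : j ≤ b) : (termP a b m s j).eval n = termN a b m s n j := by
  rw [termP, termN, bin_eq hj]
  simp only [eval_mul, eval_natCast, eval_pow, eval_aP, eval_qP, eval_rowP, Nat.cast_id]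

lemma coeff_le_eval_one (p : ℕ[X]) (i : ℕ) : p.coeff i ≤ p.eval 1 := by
  rw [Polynomial.eval_eq_sum_range]
  simp only [one_pow, mul_one]
  by_cases h : i ≤ p.natDegree
  · exact Finset.single_le_sum (f := fun i => p.coeff i) (fun _ _ => Nat.zero_le _)
      (Finset.mem_range.mpr (Nat.lt_succ_of_le h))
  · rw [Polynomial.coeff_eq_zero_of_natDegree_lt (by omega)]
    exact Nat.zero_le _

lemma coeff_eq_digit (B : ℕ) (i : ℕ) : ∀ (p : ℕ[X]), p.eval 1 < B →
    p.coeff i = (p.eval B / B ^ i) % B := by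
  induction i with
  | zero =>
    intro p hp
    have h1 := p.divX_mul_X_add
    have h2 : p.eval B = p.divX.eval B * B + p.coeff 0 := by
      conv_lhs => rw [← h1]
      simp
    have h3 := coeff_le_eval_one p 0
    rw [pow_zero, Nat.div_one, h2, Nat.mul_add_mod', Nat.mod_eq_of_lt (by omega)]
  | succ i ih =>
    intro p hp
    have h1 := p.divX_mul_X_add
    have h2 : p.eval B = p.divX.eval B * B + p.coeff 0 := by
      conv_lhs => rw [← h1]
      simp
    have h3 := coeff_le_eval_one p 0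
    have h4 : p.eval 1 = p.divX.eval 1 + p.coeff 0 := by
      conv_lhs => rw [← h1]
      simp
    have h5 := ih p.divX (by omega)
    rw [Polynomial.coeff_divX] at h5
    rw [h5, h2, pow_succ', ← Nat.div_div_eq_div_mul]
    congr 2
    rw [mul_comm, Nat.mul_add_div (by omega), Nat.div_eq_of_lt (by omega), add_zero]

/-- coefficient of a term polynomial through the kernel-friendly digit function -/
lemma coeff_termP (a b m s j K i : ℕ) (hj : j ≤ b) (h : termN a b m s 1 j < 2 ^ K) :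
    (termP a b m s j).coeff i = dig K (termN a b m s (2 ^ K) j) i := by
  rw [coeff_eq_digit (2 ^ K) i _ (by rw [eval_termP _ _ _ _ _ _ hj]; exact h),
    eval_termP _ _ _ _ _ _ hj, dig, Nat.shiftRight_eq_div_pow, pow_mul]

lemma cancel_natPoly : IsCancelAdd ℕ[X] where
  add_left_cancel := by
    intro p q r h
    ext n
    have := congrArg (fun t => Polynomial.coeff t n) h
    simp only [Polynomial.coeff_add] at this
    omega
  add_right_cancel := by
    intro p q r h
    ext n
    have := congrArg (fun t => Polynomial.coeff t n) h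
    simp only [Polynomial.coeff_add] at this
    omega

open Classical in
/-- the number of dominating sets of size `i` as a sum of coefficients -/
theorem count_eq (a b m s : ℕ) (hb : 0 < b) (hs : 0 < s) (i : ℕ) :
    {S : Finset (Vx a b m s) | S.card = i ∧ ∀ v, v ∈ S ∨ ∃ u ∈ S, (gr a b m s).Adj v u}.ncard
      = ∑ j ∈ range (b + 1), (termP a b m s j).coeff i := by
  haveI := cancel_natPoly
  have h1 := dom_sum (X : ℕ[X]) a b m s hb hs (qP a) (aP a m) (qP_add a) (aP_add a m)
  have h2 := congrArg (fun p => Polynomial.coeff p i) h1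
  simp only [Polynomial.finsetSum_coeff] at h2
  have h3 : ∀ S : Finset (Vx a b m s),
      (if ∀ v, v ∈ S ∨ ∃ u ∈ S, (gr a b m s).Adj v u then (X : ℕ[X]) ^ (#S) else 0).coeff i
      = if (S.card = i ∧ ∀ v, v ∈ S ∨ ∃ u ∈ S, (gr a b m s).Adj v u) then 1 else 0 := by
    intro S
    by_cases hd : ∀ v, v ∈ S ∨ ∃ u ∈ S, (gr a b m s).Adj v u
    · rw [if_pos hd, Polynomial.coeff_X_pow]
      by_cases hc : i = S.card
      · rw [if_pos hc, if_pos ⟨hc.symm, hd⟩]
      · rw [if_neg hc, if_neg (fun h => hc h.1.symm)]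
    · rw [if_neg hd, if_neg (fun h => hd h.2), Polynomial.coeff_zero]
  simp_rw [h3] at h2
  rw [Finset.sum_boole] at h2
  have h4 : {S : Finset (Vx a b m s) | S.card = i ∧ ∀ v, v ∈ S ∨ ∃ u ∈ S, (gr a b m s).Adj v u}
      = ((Finset.univ.filter (fun S : Finset (Vx a b m s) =>
          S.card = i ∧ ∀ v, v ∈ S ∨ ∃ u ∈ S, (gr a b m s).Adj v u) :
            Finset (Finset (Vx a b m s))) : Set (Finset (Vx a b m s))) := by
    ext S; simp
  rw [h4, Set.ncard_coe_finset]
  simp only [Nat.cast_id] at h2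
  rw [h2]
  rfl

/-- the check for one value of `j` -/
def chk (a b m s K E i0 i1 i2 j L1 U L2 : ℕ) : Bool :=
  Nat.ble (termN a b m s 1 j + 1) (2 ^ K) &&
  (Nat.ble (L1 * 2 ^ E) (dig K (termN a b m s (2 ^ K) j) i0) &&
  (Nat.ble (dig K (termN a b m s (2 ^ K) j) i1) (U * 2 ^ E) &&
   Nat.ble (L2 * 2 ^ E) (dig K (termN a b m s (2 ^ K) j) i2)))

lemma of_chk {a b m s K E i0 i1 i2 j L1 U L2 : ℕ} (hj : j ≤ b)
    (h : chk a b m s K E i0 i1 i2 j L1 U L2 = true) :
    L1 * 2 ^ E ≤ (termP a b m s j).coeff i0 ∧ (termP a b m s j).coeff i1 ≤ U * 2 ^ E ∧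
      L2 * 2 ^ E ≤ (termP a b m s j).coeff i2 := by
  simp only [chk, Bool.and_eq_true, Nat.ble_eq] at h
  obtain ⟨h0, h1, h2, h3⟩ := h
  have h0' : termN a b m s 1 j < 2 ^ K := h0
  rw [coeff_termP a b m s j K _ hj h0', coeff_termP a b m s j K _ hj h0',
    coeff_termP a b m s j K _ hj h0']
  exact ⟨h1, h2, h3⟩

end Pool.Agent.Helper73.Dom
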