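import Mathlib
import Pool.Agent.Helper73.Dom.Poly

set_option autoImplicit false

namespace Pool.Agent.Helper73.Dom

theorem c0 : chk 4 52 32 20 10900 10830 5673 5727 5740 0
    73740136 970117391 1502066441 = true := by
  decide +kernel

theorem c1 : chk 4 52 32 20 10900 10830 5673 5727 5740 1
    1965768371 24113532841 36725904593 = true := by
  decide +kernel

theorem c2 : chk 4 52 32 20 10900 10830 5673 5727 5740 2
    25592282117 292795995863 438682902882 = true := by
  decide +kernel

theorem c3 : chk 4 52 32 20 10900 10830 5673 5727 5740 3
    216878497453 2314826902784 3411967350243 = true := by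
  decide +kernel

theorem c4 : chk 4 52 32 20 10900 10830 5673 5727 5740 4
    1345378011268 13400142263680 19432251918140 = true := by
  decide +kernel

theorem c5 : chk 4 52 32 20 10900 10830 5673 5727 5740 5
    6514049766091 60561313178416 86409751864447 = true := by
  decide +kernel

theorem c6 : chk 4 52 32 20 10900 10830 5673 5727 5740 6
    25632311510318 222498025931986 312373041331334 = true := by
  decide +kernel

theorem c7 : chk 4 52 32 20 10900 10830 5673 5727 5740 7
    84275851390688 683203098419262 943850222394374 = true := by
  decide +kernel

theorem c8 : chk 4 52 32 20 10900 10830 5673 5727 5740 8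
    236242407658502 1789064903347695 2432265693438874 = true := by
  decide +kernel

end Pool.Agent.Helper73.Dom
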