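import Mathlib
import Pool.Agent.Helper73.Dom.Poly

set_option autoImplicit false

namespace Pool.Agent.Helper73.Dom

theorem c9 : chk 4 52 32 20 10900 10830 5673 5727 5740 9
    573308310901831 4056865233886078 5427912219294528 = true := by
  decide +kernel

theorem c10 : chk 4 52 32 20 10900 10830 5673 5727 5740 10
    1218924600047805 8061674945956209 10615742887224214 = true := by
  decide +kernel

theorem c11 : chk 4 52 32 20 10900 10830 5673 5727 5740 11
    2292272124295966 14173344642752106 18369859936424759 = true := by
  decide +kernel

theorem c12 : chk 4 52 32 20 10900 10830 5673 5727 5740 12
    3842623124362213 22217912508940026 28344622850617497 = true := by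
  decide +kernel

theorem c13 : chk 4 52 32 20 10900 10830 5673 5727 5740 13
    5778897473530304 31253709044055655 39249000035096766 = true := by
  decide +kernel

theorem c14 : chk 4 52 32 20 10900 10830 5673 5727 5740 14
    7838649414838700 39663544940221495 49034762953283733 = true := by
  decide +kernel

theorem c15 : chk 4 52 32 20 10900 10830 5673 5727 5740 15
    9633262493287312 45617494533097126 55520817647619674 = true := by
  decide +kernel

theorem c16 : chk 4 52 32 20 10900 10830 5673 5727 5740 16
    10767164830811871 47729136806447058 57193530268629816 = true := by
  decide +kernel

theorem c17 : chk 4 52 32 20 10900 10830 5673 5727 5740 17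
    10981005838791144 45579414524377483 53777304764166631 = true := by
  decide +kernel

end Pool.Agent.Helper73.Dom
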