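import Mathlib
import Pool.Agent.Helper73.Dom.Poly

set_option autoImplicit false

namespace Pool.Agent.Helper73.Dom

theorem c18 : chk 4 52 32 20 10900 10830 5673 5727 5740 18
    10247402642125211 39839224425687496 46284733502390789 = true := by
  decide +kernel

theorem c19 : chk 4 52 32 20 10900 10830 5673 5727 5740 19
    8771521204723707 31950485583413612 36553836856434636 = true := by
  decide +kernel

theorem c20 : chk 4 52 32 20 10900 10830 5673 5727 5740 20
    6901837346909375 23562511272557517 26548581717964101 = true := by
  decide +kernel

theorem c21 : chk 4 52 32 20 10900 10830 5673 5727 5740 21
    5002111675271922 16011604861798771 17768879802467104 = true := by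
  decide +kernel

theorem c22 : chk 4 52 32 20 10900 10830 5673 5727 5740 22
    3345934615128641 10046793229036996 10982668988572535 = true := by
  decide +kernel

theorem c23 : chk 4 52 32 20 10900 10830 5673 5727 5740 23
    2070472000852085 5835316491922546 6284391936601652 = true := by
  decide +kernel

theorem c24 : chk 4 52 32 20 10900 10830 5673 5727 5740 24
    1189039735409165 3147853499698268 3340530676682471 = true := by
  decide +kernel

theorem c25 : chk 4 52 32 20 10900 10830 5673 5727 5740 25
    636962466577267 1585681365954950 1658567837486777 = true := by
  decide +kernel

theorem c26 : chk 4 52 32 20 10900 10830 5673 5727 5740 26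
    321162715867244 752913696073855 776489731071562 = true := by
  decide +kernel

theorem c27 : chk 4 52 32 20 10900 10830 5673 5727 5740 27
    154956034659519 342760674862545 348708326258516 = true := by
  decide +kernel

end Pool.Agent.Helper73.Dom
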