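import Mathlib
import Pool.Agent.Helper73.Dom.Poly

set_option autoImplicit false

namespace Pool.Agent.Helper73.Dom

theorem c28 : chk 4 52 32 20 10900 10830 5673 5727 5740 28
    73748275543233 154277276429084 154916848008574 = true := by
  decide +kernel

theorem c29 : chk 4 52 32 20 10900 10830 5673 5727 5740 29
    36524065151910 72402440234543 71792539999514 = true := by
  decide +kernel

theorem c30 : chk 4 52 32 20 10900 10830 5673 5727 5740 30
    20501344124101 38500200306801 37694865873322 = true := by
  decide +kernel

theorem c31 : chk 4 52 32 20 10900 10830 5673 5727 5740 31
    14603356281049 25836352065089 24943400375734 = true := by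
  decide +kernel

theorem c32 : chk 4 52 32 20 10900 10830 5673 5727 5740 32
    14653804229124 24119988537804 22892759610995 = true := by
  decide +kernel

theorem c33 : chk 4 52 32 20 10900 10830 5673 5727 5740 33
    21464884117381 32338912309245 30057361685202 = true := by
  decide +kernel

theorem c34 : chk 4 52 32 20 10900 10830 5673 5727 5740 34
    43222465176415 58807494697166 53352901038956 = true := by
  decide +kernel

theorem c35 : chk 4 52 32 20 10900 10830 5673 5727 5740 35
    106586575512348 130035202184663 114955658205843 = true := by
  decide +kernel

theorem c36 : chk 4 52 32 20 10900 10830 5673 5727 5740 36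
    287630179936697 314033441435216 270376590430386 = true := by
  decide +kernel

theorem c37 : chk 4 52 32 20 10900 10830 5673 5727 5740 37
    782808846440296 765326266927222 641825888917821 = true := by
  decide +kernel

theorem c38 : chk 4 52 32 20 10900 10830 5673 5727 5740 38
    2041327234689408 1789661579201363 1462388252260700 = true := by
  decide +kernel

theorem c39 : chk 4 52 32 20 10900 10830 5673 5727 5740 39
    4946514195923643 3894511222785779 3101812525706677 = true := by
  decide +kernel

end Pool.Agent.Helper73.Dom
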