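import Mathlib
import Pool.Agent.Helper73.Dom.Poly

set_option autoImplicit false

namespace Pool.Agent.Helper73.Dom

theorem c40 : chk 4 52 32 20 10900 10830 5673 5727 5740 40
    10929966162010242 7737533517141763 6008480930930639 = true := by
  decide +kernel

theorem c41 : chk 4 52 32 20 10900 10830 5673 5727 5740 41
    21740325605206494 13852021097433615 10490101167651523 = true := by
  decide +kernel

theorem c42 : chk 4 52 32 20 10900 10830 5673 5727 5740 42
    38524940543162656 22110807138104726 16332803344103343 = true := by
  decide +kernel

theorem c43 : chk 4 52 32 20 10900 10830 5673 5727 5740 43
    60225182232654939 31156586382503338 22452591735273209 = true := by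
  decide +kernel

theorem c44 : chk 4 52 32 20 10900 10830 5673 5727 5740 44
    82179331572474882 38343932031654662 26960912206830410 = true := by
  decide +kernel

theorem c45 : chk 4 52 32 20 10900 10830 5673 5727 5740 45
    96664756608271524 40699590350415728 27925647299730817 = true := by
  decide +kernel

theorem c46 : chk 4 52 32 20 10900 10830 5673 5727 5740 46
    96501316532413792 36681699380559653 24563321710459782 = true := by
  decide +kernel

theorem c47 : chk 4 52 32 20 10900 10830 5673 5727 5740 47
    80119191417977629 27506807078321140 17978276219434778 = true := by
  decide +kernel

theorem c48 : chk 4 52 32 20 10900 10830 5673 5727 5740 48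
    53802751048832780 16690865071231940 10648789640879747 = true := by
  decide +kernel

theorem c49 : chk 4 52 32 20 10900 10830 5673 5727 5740 49
    28066051520842503 7870501077261529 4902061754349019 = true := by
  decide +kernel

theorem c50 : chk 4 52 32 20 10900 10830 5673 5727 5740 50
    10666346438636289 2704915073156522 1644845194180230 = true := by
  decide +kernel

theorem c51 : chk 4 52 32 20 10900 10830 5673 5727 5740 51
    2626227875221384 602493987507879 357732127127400 = true := by
  decide +kernel

theorem c52 : chk 4 52 32 20 10900 10830 5673 5727 5740 52
    314316949458167 65257733843839 37836320231770 = true := by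
  decide +kernel

end Pool.Agent.Helper73.Dom
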